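import Mathlib
import Pool.Agent.R774.Hyp7

/-! Weinstein conjecture: a closed contact manifold with a transversally hyperbolic strict contact map
has a closed Reeb orbit, near every cluster point of every orbit in the hyperbolic set. -/

open scoped Topology ContDiff Manifold
open Set Filter
open Pool.Agent.H826R2.WStmt Pool.Agent.W671.RStmt Pool.Agent.R774.RootStmt Pool.Agent.R774.HypStmt

namespace Pool.Agent.Results.MP_e3ee0c_gt.HyperbolicSymmetry

universe u v w

theorem result
    {E : Type u} [NormedAddCommGroup E] [NormedSpace ℝ E] [FiniteDimensional ℝ E]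
    -- a closed manifold `M` with a contact form `α` and its Reeb field `R`
    {M : Type v} [TopologicalSpace M] [ChartedSpace E M] [IsManifold 𝓘(ℝ, E) ∞ M]
    [T2Space M] [CompactSpace M]
    (α : M → Cov E) (hα : IsContact α) (R : M → E) (hR : IsReeb α R)
    -- a smooth map `g` with `g* α = α`, and a nonempty closed set `K` with `g K ⊆ K`
    (g : M → M) (hg : IsStrict α g)
    (K : Set M) (hK : IsClosed K) (hKne : K.Nonempty) (hgK : ∀ x ∈ K, g x ∈ K)
    -- a continuous field of quadratic forms `Q x v = B x (De v, De v)` of any signature, where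
    -- `e` is an injective immersion in a normed space,
    {F : Type w} [NormedAddCommGroup F] [NormedSpace ℝ F]
    (e : M → F) (he : IsInjImmersion (E := E) e)
    (B : M → F →L[ℝ] F →L[ℝ] ℝ) (hB : Continuous B)
    -- which increases strictly under `Dg` on the kernel of `α`, at the points of `K`
    (hyp : HyperbolicOn α e B g K) :
    -- the Reeb field has a periodic orbit
    (∃ (γ : ℝ → M) (T : ℝ), IsPeriodicOrbit R γ T) ∧
    -- and periodic orbits pass through every neighbourhood of every cluster point of an orbit in `K`
      ∀ x ∈ K, ∀ q : M, MapClusterPt q atTop (fun k : ℕ => g^[k] x) → ∀ U ∈ 𝓝 q,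
        ∃ (γ : ℝ → M) (T : ℝ), IsPeriodicOrbit R γ T ∧ γ 0 ∈ U :=
  exists_periodic_hyperbolic α hα R hR g hg K hK hKne hgK e he B hB hyp

end Pool.Agent.Results.MP_e3ee0c_gt.HyperbolicSymmetry
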