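import Mathlib
import Pool.Agent.R775.W14

/-! Weinstein conjecture, contact forms with a local torus symmetry of rank at least two, with
arbitrary monodromy group in `GL(m, ℤ)` and on an arbitrary covering. A quasi-periodic Reeb orbit
`t ↦ q (t w x)` corresponds to a critical point `x` of the momentum of `w`. If this critical point is
nondegenerate transversally to the torus orbit, then infinitely many closed Reeb orbits meet every
neighbourhood of `q x`; the direction `w` may be irrational and need not be fixed by the
monodromy. -/

open scoped Topology ContDiff Manifold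
open Pool.Agent.H826R2.WStmt Pool.Agent.TH607.FxStmt Pool.Agent.R775

namespace Pool.Agent.Results.MP_e3ee0c_gt.NondegenerateTori

universe u v w x

theorem result
    {E : Type u} [NormedAddCommGroup E] [NormedSpace ℝ E] [FiniteDimensional ℝ E]
    -- a manifold `M` with a contact form `α` and its Reeb field `R`
    {M : Type v} [TopologicalSpace M] [ChartedSpace E M] [IsManifold 𝓘(ℝ, E) ∞ M]
    (α : M → Cov E) (hα : IsContact α) (R : M → E) (hR : IsReeb α R)
    -- a regular covering `q : P → M` with deck group `Γ`
    {P : Type w} [TopologicalSpace P] [ChartedSpace E P] [IsManifold 𝓘(ℝ, E) ∞ P]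
    {Γ : Type x} [Group Γ] [MulAction Γ P] (q : P → M) (hq : IsQuotientMap E q Γ)
    -- a smooth action of an `m`-torus on `P`, `m ≥ 2`, preserving the lifted contact form
    {m : ℕ} (hm : 2 ≤ m) (A : TorusSymmetry (pull (E := E) q α) m)
    -- which is normalised by the deck group
    (hA : Normalises Γ A.act)
    -- a point `x` at which the action is locally free
    (x : P) (hfree : ∀ κ, fundVec A κ x = 0 → κ = 0)
    -- a quasi-periodic Reeb orbit: the image of a line in the torus orbit of `x`
    (w : Fin m → ℝ)
    (hw : IsMIntegralCurve (I := 𝓘(ℝ, E)) (fun t : ℝ => q (A.act (t • w) x))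
      (fun y => (R y : TangentSpace 𝓘(ℝ, E) y)))
    -- which is nondegenerate: the kernel of the Hessian of the momentum of `w` at `x` consists of
    -- vectors tangent to the torus orbit
    (hnd : ∀ u : E, (∀ v : E, hessian (momentumAt A w) x u v = 0) → ∃ κ, u = fundVec A κ x)
    -- a neighbourhood of the image of `x`
    (U : Set M) (hU : U ∈ 𝓝 (q x)) :
    -- the neighbourhood meets infinitely many closed Reeb orbits
    {C : Set M | (∃ (c : ℝ → M) (T : ℝ), IsPeriodicOrbit R c T ∧ C = Set.range c) ∧
      (C ∩ U).Nonempty}.Infinite :=
  infinite_of_nondegenerate α hα R hR q hq hm A hA x w hfree hw hnd U hU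

end Pool.Agent.Results.MP_e3ee0c_gt.NondegenerateTori
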