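import Mathlib
import Pool.Agent.R775.W8

/-! Weinstein conjecture, contact forms with a nontrivial local torus symmetry of arbitrary rank,
not necessarily locally free, with arbitrary monodromy group in `GL(m, ℤ)` and on an arbitrary
covering. (1) The Reeb flow always has a quasi-periodic orbit (possibly periodic), the image of a
straight line under a continuous map from the torus. (2) Arbitrarily small perturbations of the
contact form, inside a finite-dimensional linear family of multiples of the contact form by smooth
functions, have closed Reeb orbits. In particular the contact forms (for the same contact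
structure) which satisfy the Weinstein conjecture accumulate at the given form in the topology of
uniform convergence of all derivatives. -/

open scoped Topology ContDiff Manifold
open Pool.Agent.H826R2.WStmt Pool.Agent.TH607.FxStmt Pool.Agent.R775

namespace Pool.Agent.Results.MP_e3ee0c_gt.QuasiPeriodicAndPerturbed

universe u v w x

theorem result
    {E : Type u} [NormedAddCommGroup E] [NormedSpace ℝ E] [FiniteDimensional ℝ E]
    -- a closed manifold `M` with a contact form `α` and its Reeb field `R`
    {M : Type v} [TopologicalSpace M] [ChartedSpace E M] [IsManifold 𝓘(ℝ, E) ∞ M]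
    [T2Space M] [CompactSpace M]
    (α : M → Cov E) (hα : IsContact α) (R : M → E) (hR : IsReeb α R)
    -- a regular covering `q : P → M` with deck group `Γ`, `P` connected
    {P : Type w} [TopologicalSpace P] [ChartedSpace E P] [IsManifold 𝓘(ℝ, E) ∞ P]
    [T2Space P] [SigmaCompactSpace P] [ConnectedSpace P]
    {Γ : Type x} [Group Γ] [MulAction Γ P] (q : P → M) (hq : IsQuotientMap E q Γ)
    -- a smooth action of an `m`-torus on `P` preserving the lifted contact form
    {m : ℕ} (A : TorusSymmetry (pull (E := E) q α) m)
    -- which is normalised by the deck group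
    (hA : Normalises Γ A.act)
    -- and which is not the trivial action
    (hne : ∃ θ y, A.act θ y ≠ y) :
    -- the Reeb flow of `α` has a quasi-periodic orbit
    (∃ (F : (Fin m → ℝ) → M) (w : Fin m → ℝ), IsQuasiPeriodicOrbit R F w) ∧
    -- there are smooth functions `g 0, ..., g (m - 1)` on `M`, depending only on `α` and `A`
    ∃ g : Fin m → M → ℝ, (∀ i, ContMDiff 𝓘(ℝ, E) 𝓘(ℝ, ℝ) ∞ (g i)) ∧
      -- and arbitrarily small coefficients `δ`
      ∀ ε > (0:ℝ), ∃ δ : Fin m → ℝ, (∀ i, |δ i| < ε) ∧ (∀ y, 0 < 1 + ∑ i, δ i * g i y) ∧
        -- such that `(1 + ∑ δ i * g i) α` is a contact form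
        IsContact (scale (fun y => 1 + ∑ i, δ i * g i y) α) ∧
        -- whose Reeb flow has a periodic orbit
        ∃ R' : M → E, IsReeb (scale (fun y => 1 + ∑ i, δ i * g i y) α) R' ∧
          ∃ (c : ℝ → M) (T : ℝ), IsPeriodicOrbit R' c T :=
  quasi_and_dense α hα R hR q hq A hA hne

end Pool.Agent.Results.MP_e3ee0c_gt.QuasiPeriodicAndPerturbed
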