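import Mathlib
import Pool.Agent.R774.Root5

/-! Weinstein conjecture: if the Reeb flow of a closed contact manifold has roots (for instance strict
contactomorphisms of finite order) outside the flow which are transversely close to the identity,
then it has a periodic orbit. -/

open scoped Topology ContDiff Manifold
open Pool.Agent.H826R2.WStmt Pool.Agent.W671.RStmt Pool.Agent.R774.RootStmt

namespace Pool.Agent.Results.MP_e3ee0c_gt.SmallRoots

universe u v w

theorem result
    {E : Type u} [NormedAddCommGroup E] [NormedSpace ℝ E] [FiniteDimensional ℝ E]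
    -- a closed manifold `M` with a contact form `α`, its Reeb field `R` and the Reeb flow `Φ`
    {M : Type v} [TopologicalSpace M] [ChartedSpace E M] [IsManifold 𝓘(ℝ, E) ∞ M]
    [T2Space M] [CompactSpace M]
    (α : M → Cov E) (hα : IsContact α) (R : M → E) (hR : IsReeb α R)
    (Φ : M → ℝ → M) (hΦ : IsFlow R Φ)
    -- an injective immersion in a normed space, used to measure lengths
    {F : Type w} [NormedAddCommGroup F] [NormedSpace ℝ F]
    (e : M → F) (he : IsInjImmersion (E := E) e)
    -- smooth maps `h k` preserving `α` which are transversely close to the identity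
    (h : ℕ → M → M) (hh : ∀ k, IsStrict α (h k)) (τ : ℕ → M → ℝ) (hτ : NearId e R Φ h τ)
    -- every point is periodic under `Φ_{-ρ k} ∘ h k`, and `h k` is not the time `ρ k` map of the flow
    (ρ : ℕ → ℝ) (hroot : ∀ k x, ∃ n : ℕ, 0 < n ∧ (h k)^[n] x = Φ x (n * ρ k))
    (hne : ∀ k, ∃ x, h k x ≠ Φ x (ρ k)) :
    -- there is a periodic orbit of the Reeb field
    ∃ (γ : ℝ → M) (T : ℝ), IsPeriodicOrbit R γ T :=
  exists_periodic_of_roots α hα R hR Φ hΦ e he h hh τ hτ ρ hroot hne

end Pool.Agent.Results.MP_e3ee0c_gt.SmallRoots
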